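import Pool.Agent.V11150.HadA

/-!
# Hadamard matrices of order `2 w ^ r (w + 1)`, `w = v ^ 2 ^ (j + 1)`

There is a constant `C` such that for all natural numbers `n`, `v`, `t`, `j`, `r` with `v ≤ 2 ↑↑ n`
(the power tower of `n` twos, `1` for `n = 0`), `t ≥ 2 ^ C ^ (n + 1)` and `2 ^ t ∣ v + 1` there is a
Hadamard matrix of order `2 w ^ r (w + 1)`, where `w = v ^ 2 ^ (j + 1)`. All these orders are four
times an odd number. No primality is assumed: for every odd `q` and all large `t` the number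
`v = 2 ^ t * q - 1` is allowed, and `j`, `r` are arbitrary.

A skew-Hadamard matrix of order `v + 1` gives a symmetric core of order `w`; it is plugged into a
symmetric conference matrix of order `w + 1` together with four sign matrices of order `w ^ r`,
which are built from the core by recursion on `r`.
-/

namespace Pool.Agent.Results.MP_d8b1b3_co.ConferenceOrders

theorem result : ∃ C : ℕ, ∀ n v t j r : ℕ, v ≤ (fun x : ℕ => 2 ^ x)^[n] 1 →
    2 ^ C ^ (n + 1) ≤ t → 2 ^ t ∣ v + 1 →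
    ∃ H : Matrix (Fin (2 * (v ^ 2 ^ (j + 1)) ^ r * (v ^ 2 ^ (j + 1) + 1)))
        (Fin (2 * (v ^ 2 ^ (j + 1)) ^ r * (v ^ 2 ^ (j + 1) + 1))) ℤ,
      (∀ i k, H i k = 1 ∨ H i k = -1) ∧
      H * H.transpose = ((2 * (v ^ 2 ^ (j + 1)) ^ r * (v ^ 2 ^ (j + 1) + 1) : ℕ) : ℤ) •
        (1 : Matrix (Fin (2 * (v ^ 2 ^ (j + 1)) ^ r * (v ^ 2 ^ (j + 1) + 1)))
          (Fin (2 * (v ^ 2 ^ (j + 1)) ^ r * (v ^ 2 ^ (j + 1) + 1))) ℤ) := by
  obtain ⟨C, _, h⟩ := Pool.Agent.V11150.HadA.main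
  exact ⟨C, fun n v t j r hv ht hd => h n v t j r hv ht hd⟩

end Pool.Agent.Results.MP_d8b1b3_co.ConferenceOrders
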