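import Mathlib
import Pool.Agent.V11175.PH4

/-!
The Hadamard conjecture: for every `A`, every large `n` divisible by four has a sign matrix of
order `n` in which every row is orthogonal to all but at most two other rows; more precisely,
apart from at most `n / (log n) ^ A` rows, every row is orthogonal to all but at most one other
row and the remaining inner product is at most `n / (log n) ^ A`, and
`n / 2 - n / (log n) ^ A` of the rows are pairwise orthogonal.
-/

set_option autoImplicit false

namespace Pool.Agent.Results.MP_d8b1b3_co.NearlyHadamard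

open Finset Matrix

theorem result (A : ℕ) : ∃ n₀ : ℕ, ∀ n : ℕ, n₀ ≤ n → 4 ∣ n →
    ∃ H : Matrix (Fin n) (Fin n) ℤ, (∀ i j, H i j = 1 ∨ H i j = -1) ∧
      (∀ i, (univ.filter fun j => j ≠ i ∧ (H * H.transpose) i j ≠ 0).card ≤ 2) ∧
      (∃ R : Finset (Fin n), (n : ℝ) / 2 - n / Real.log n ^ A ≤ R.card ∧
        ∀ i ∈ R, ∀ j ∈ R, i ≠ j → (H * H.transpose) i j = 0) ∧
      (∃ T : Finset (Fin n), (T.card : ℝ) ≤ n / Real.log n ^ A ∧ ∀ i, i ∉ T →
        (univ.filter fun j => j ≠ i ∧ (H * H.transpose) i j ≠ 0).card ≤ 1 ∧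
        ∀ j, j ≠ i → |(((H * H.transpose) i j : ℤ) : ℝ)| ≤ n / Real.log n ^ A) :=
  Pool.Agent.V11175.PH.nearly A

end Pool.Agent.Results.MP_d8b1b3_co.NearlyHadamard
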