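import Pool.Agent.V11150.HadC

/-!
# Hadamard matrices of order `4 (q + 2)` for prime powers `q ≡ -3 (mod 2 ^ (t + 1))`

There is a constant `C` such that for all natural numbers `n` and `t` and all prime powers `q` with
`q ≤ 2 ↑↑ n` (the power tower of `n` twos, `1` for `n = 0`), `t ≥ 2 ^ C ^ (n + 1)` and
`2 ^ (t + 1) ∣ q + 3` there is a Hadamard matrix of order `4 (q + 2)`.

A skew-Hadamard matrix of order `(q + 3) / 2` (from the asymptotic existence theorem for
skew-Hadamard matrices) has a skew core `S` of order `n = (q + 1) / 2`; the Paley conference matrix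
of order `q + 1` can be written as `[A, B; B, -A]` with symmetric `A`, `B` of order `n`. The matrix
of order `4 (2 n + 1)` consists of four border rows and columns and of `U ⊗ J + V ⊗ K`, where `U` is
made of `I` and `S`, and `V` is made of `A`, `B` and `I`.
-/

namespace Pool.Agent.Results.MP_d8b1b3_co.PrimePowerPlusTwo

theorem result : ∃ C : ℕ, ∀ n q t : ℕ, IsPrimePow q → q ≤ (fun x : ℕ => 2 ^ x)^[n] 1 →
    2 ^ C ^ (n + 1) ≤ t → 2 ^ (t + 1) ∣ q + 3 →
    ∃ H : Matrix (Fin (4 * (q + 2))) (Fin (4 * (q + 2))) ℤ,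
      (∀ i j, H i j = 1 ∨ H i j = -1) ∧
      H * H.transpose = ((4 * (q + 2) : ℕ) : ℤ) •
        (1 : Matrix (Fin (4 * (q + 2))) (Fin (4 * (q + 2))) ℤ) := by
  obtain ⟨C, _, h⟩ := Pool.Agent.V11150.HadC.main
  exact ⟨C, fun n q t hq hqn ht hd => h n q t hq hqn ht hd⟩

end Pool.Agent.Results.MP_d8b1b3_co.PrimePowerPlusTwo
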