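import Mathlib
import Pool.Agent.V11175.PH5

/-!
The Hadamard conjecture: sums and differences of two orders of Hadamard matrices.
For every integer `m` divisible by four and every large `x ≥ |m|` there are at least
`x / (2 ^ C ^ (k + 1) * log x)` integers `a` in `[1, x]` such that `a` and `|a - m|` are orders
of Hadamard matrices, where `k` is the iterated logarithm of `x`.
With `m = x` this says that every large multiple of four is the sum of two orders; with `m < 0`,
that every multiple of four is a difference of two orders in many ways.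
-/

set_option autoImplicit false

namespace Pool.Agent.Results.MP_d8b1b3_co.SumsAndDifferences

open Finset Matrix

/-- `n` is the order of a Hadamard matrix -/
def IsHadamardOrder (n : ℕ) : Prop :=
  0 < n ∧ ∃ H : Matrix (Fin n) (Fin n) ℤ, (∀ i j, H i j = 1 ∨ H i j = -1) ∧
    H * H.transpose = (n : ℤ) • (1 : Matrix (Fin n) (Fin n) ℤ)

open Classical in
theorem result : ∃ C x₀ : ℕ, ∀ k x : ℕ, x₀ ≤ x → x ≤ (fun y : ℕ => 2 ^ y)^[k] 1 →
    ∀ m : ℤ, 4 ∣ m → |m| ≤ x →
      (x : ℝ) / (2 ^ C ^ (k + 1) * Real.log x) ≤
        (((Icc 1 x).filter fun a => IsHadamardOrder a ∧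
          IsHadamardOrder ((a : ℤ) - m).natAbs).card : ℝ) :=
  Pool.Agent.V11175.PH.pairs

end Pool.Agent.Results.MP_d8b1b3_co.SumsAndDifferences
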